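import Pool.Agent.Lib.MP_c7af3c_ag.LINES.H26.HblLoc
import Pool.Agent.Lib.MP_c7af3c_ag.LINES.H54.Sym
import Pool.Agent.Lib.MP_c7af3c_ag.LINES.H54.Block
import Pool.Agent.Lib.MP_c7af3c_ag.SHARP.H54.Line

/-!
# MP_c7af3c_ag, project LINES: the height inequality of a line (module HBL) (helper26)
-/

set_option autoImplicit false
set_option linter.unusedSectionVars false

namespace Pool.Agent.Lines.H26

open MvPolynomial WithZero Matrix Pool.Agent.Gen Pool.Agent.Sharp

section bounds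
variable {L : Type} [Field L] {n c : ℕ} {d : Fin c → ℕ} (D : DSys L n c d)
  (z : Fin 2 → Fin (n + 1) → L)

theorem W2_bound {v : Valuation L ℤᵐ⁰} {M : ℤᵐ⁰} (hM : 1 ≤ M)
    (hdel : ∀ m I, I.degree = d m → ∀ f, v f ≤ 1 → v (D.del m I f) ≤ M)
    (hF : ∀ m, CB v (D.F m) M) (hz : ∀ a r, v (z a r) ≤ 1) (q : Fin (n + 1) × Fin (n + 1))
    (ρ : Fin 2 × Fin (n + 1)) : v (W2 D z q ρ) ≤ M * M := by
  unfold W2 WT
  rw [Pi.add_apply]
  refine (v.map_add _ _).trans (max_le ?_ ?_)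
  · rw [Pi.smul_apply, smul_eq_mul, map_mul]
    refine mul_le_mul' ((hz _ _).trans hM) ?_
    refine le_trans ?_ hM
    by_cases hp : ρ.2 = q.1
    · rw [hp]; simp
    · rw [Pi.single_eq_of_ne hp, map_zero]; exact zero_le
  · exact VT_bound D _ v M M hdel (hz _) _ (fun m => deg_XF D m _ _)
      (fun m => CB_XF (hF m) _ _) ρ.2

theorem V2_bound {v : Valuation L ℤᵐ⁰} {M b : ℤᵐ⁰}
    (hdel : ∀ m I, I.degree = d m → ∀ f, v f ≤ 1 → v (D.del m I f) ≤ M)
    (hz : ∀ a r, v (z a r) ≤ 1) (G : Fin c → MvPolynomial (Fin (n + 1)) L)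
    (hG : ∀ m, ∀ I ∈ (G m).support, I.degree = d m) (hb : ∀ m, CB v (G m) b)
    (ρ : Fin 2 × Fin (n + 1)) : v (V2 D z G ρ) ≤ b * M :=
  VT_bound D _ v M b hdel (hz _) G hG hb ρ.2

theorem hom_mon (i j : Fin (n + 1)) (q : Mi d) (m : Fin c) :
    (mon d L i j q m).IsHomogeneous (d m) := by
  unfold mon
  by_cases h : m = q.1
  · subst h
    rw [Pi.single_eq_same]
    have h1 := ((isHomogeneous_X L i).pow (q.2 : ℕ)).mul
      ((isHomogeneous_X L j).pow (d q.1 - (q.2 : ℕ)))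
    have h2 : 1 * (q.2 : ℕ) + 1 * (d q.1 - (q.2 : ℕ)) = d q.1 := by
      have := q.2.2
      omega
    rwa [h2] at h1
  · rw [Pi.single_eq_of_ne h]
    exact isHomogeneous_zero _ _ _

theorem deg_of_hom {F : MvPolynomial (Fin (n + 1)) L} {k : ℕ} (h : F.IsHomogeneous k) :
    ∀ I ∈ F.support, I.degree = k := by
  intro I hI
  rw [Finsupp.degree_eq_weight_one]
  exact h (mem_support_iff.1 hI)

theorem CB_pow {v : Valuation L ℤᵐ⁰} {F : MvPolynomial (Fin (n + 1)) L} (h : CB v F 1) (k : ℕ) :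
    CB v (F ^ k) 1 := by
  classical
  induction k with
  | zero =>
    intro I
    rw [pow_zero, coeff_one]
    split_ifs
    · rw [map_one]
    · rw [map_zero]; exact zero_le
  | succ k ih =>
    rw [pow_succ]
    have := ih.mul v h
    rwa [one_mul] at this

theorem CB_mon {v : Valuation L ℤᵐ⁰} (i j : Fin (n + 1)) (q : Mi d) (m : Fin c) :
    CB v (mon d L i j q m) 1 := by
  unfold mon
  by_cases h : m = q.1
  · subst h
    rw [Pi.single_eq_same]
    have := (CB_pow (CB_X v i) (q.2 : ℕ)).mul v (CB_pow (CB_X v j) (d q.1 - (q.2 : ℕ)))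
    rwa [one_mul] at this
  · rw [Pi.single_eq_of_ne h]
    intro I
    rw [coeff_zero, map_zero]
    exact zero_le

end bounds

theorem V2_smul_sum {L : Type} [Field L] {n c : ℕ} {d : Fin c → ℕ} (D : DSys L n c d)
    (z : Fin 2 → Fin (n + 1) → L) {ι : Type} (s : Finset ι) (r : ι → L)
    (G : ι → Fin c → MvPolynomial (Fin (n + 1)) L) :
    V2 D z (∑ i ∈ s, r i • G i) = ∑ i ∈ s, r i • V2 D z (G i) := by
  rw [V2_sum]
  exact Finset.sum_congr rfl fun i _ => V2_smul D z _ _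

/-- the sum over the places for the height of a line alone -/
theorem glob_q {L : Type} [Field L] (S : PlaceSys L) {n : ℕ} (x y : Fin (n + 1) → L)
    (hS : S.IsProd) {i0 j0 : Fin (n + 1)} (hp : plu x y i0 j0 ≠ 0) (B : S.V → ℕ)
    (hB : {p | B p ≠ 0}.Finite) (μ : L) (hμ : μ ≠ 0) (t A b a' e : ℕ)
    (h : ∀ p, S.v p μ * mxP S x y p ^ t * S.v p (plu x y i0 j0) ^ a' ≤
      exp (B p : ℤ) ^ A * mxP S x y p ^ b * S.v p (plu x y i0 j0) ^ e) :
    (t : ℤ) * hL S x y ≤ A * tot S B + b * hL S x y := by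
  classical
  have hf2 := finite_mxP S x y hS.fin hp
  have hf3 := hS.fin _ hμ
  have hf4 := hS.fin _ hp
  set T : Finset S.V := hf2.toFinset ∪ hf3.toFinset ∪ hf4.toFinset ∪ hB.toFinset with hT
  have hmem : ∀ p, p ∉ T → mxP S x y p = 1 ∧ S.v p μ = 1 ∧ S.v p (plu x y i0 j0) = 1 ∧
      B p = 0 := by
    intro p hp
    rw [hT] at hp
    simp only [Finset.mem_union, Set.Finite.mem_toFinset, Set.mem_ofPred_eq, not_or, not_not] at hp
    exact ⟨hp.1.1.1, hp.1.1.2, hp.1.2, hp.2⟩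
  have key : ∀ f : S.V → ℤ, (∀ p, p ∉ T → f p = 0) →
      ∑ᶠ p, (S.w p : ℤ) * f p = ∑ p ∈ T, (S.w p : ℤ) * f p := by
    intro f hf
    refine finsum_eq_sum_of_support_subset _ fun p hp => ?_
    by_contra hc
    simp only [Function.mem_support, ne_eq, mul_eq_zero, not_or] at hp
    exact hp.2 (hf p hc)
  have e2 : hL S x y = ∑ p ∈ T, (S.w p : ℤ) * log (mxP S x y p) :=
    key _ fun p hp => by rw [(hmem p hp).1, log_one]
  have e3 : (0 : ℤ) = ∑ p ∈ T, (S.w p : ℤ) * log (S.v p μ) := by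
    rw [← hS.prod μ hμ]
    exact key _ fun p hp => by rw [(hmem p hp).2.1, log_one]
  have e4 : (0 : ℤ) = ∑ p ∈ T, (S.w p : ℤ) * log (S.v p (plu x y i0 j0)) := by
    rw [← hS.prod _ hp]
    exact key _ fun p hp => by rw [(hmem p hp).2.2.1, log_one]
  have e5 : tot S B = ∑ p ∈ T, (S.w p : ℤ) * (B p : ℤ) :=
    key _ fun p hp => by rw [(hmem p hp).2.2.2]; rfl
  have hloc : ∀ p, log (S.v p μ) + t * log (mxP S x y p) +
      a' * log (S.v p (plu x y i0 j0)) ≤
      A * (B p : ℤ) + b * log (mxP S x y p) + e * log (S.v p (plu x y i0 j0)) := by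
    intro p
    have h0 := h p
    have n1 : S.v p μ ≠ 0 := (map_ne_zero _).2 hμ
    have n2 : S.v p (plu x y i0 j0) ≠ 0 := (map_ne_zero _).2 hp
    have n4 : mxP S x y p ≠ 0 := mxP_ne_zero S x y hp p
    have n5 : (exp (B p : ℤ) : ℤᵐ⁰) ≠ 0 := exp_ne_zero
    have h1 := (log_le_log (mul_ne_zero (mul_ne_zero n1 (pow_ne_zero _ n4)) (pow_ne_zero _ n2))
      (mul_ne_zero (mul_ne_zero (pow_ne_zero _ n5) (pow_ne_zero _ n4)) (pow_ne_zero _ n2))).2 h0
    rw [log_mul (mul_ne_zero n1 (pow_ne_zero _ n4)) (pow_ne_zero _ n2),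
      log_mul n1 (pow_ne_zero _ n4),
      log_mul (mul_ne_zero (pow_ne_zero _ n5) (pow_ne_zero _ n4)) (pow_ne_zero _ n2),
      log_mul (pow_ne_zero _ n5) (pow_ne_zero _ n4), log_pow', log_pow', log_pow', log_pow',
      log_pow', log_exp] at h1
    exact h1
  have hsum := Finset.sum_le_sum fun p (_ : p ∈ T) =>
    mul_le_mul_of_nonneg_left (hloc p) (Int.natCast_nonneg (S.w p))
  simp only [mul_add, Finset.sum_add_distrib] at hsum
  have c1 : ∀ (k : ℤ) (f : S.V → ℤ), ∑ p ∈ T, (S.w p : ℤ) * (k * f p) =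
      k * ∑ p ∈ T, (S.w p : ℤ) * f p := by
    intro k f
    rw [Finset.mul_sum]
    exact Finset.sum_congr rfl fun p _ => by ring
  rw [c1, c1, c1, c1, c1, ← e3, ← e4, ← e2, ← e5] at hsum
  linarith

section main
variable {L : Type} [Field L] {n c : ℕ} {d : Fin c → ℕ} (D : DSys L n c d)
  (z : Fin 2 → Fin (n + 1) → L)

/-- the restriction of the variables to the line in terms of two variables -/
theorem lineP_X_eq {i0 j0 : Fin (n + 1)} (h : plu (z 0) (z 1) i0 j0 ≠ 0) (i : Fin (n + 1)) :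
    lineP (X i) (z 0) (z 1) =
      (plu (z 0) (z 1) i j0 / plu (z 0) (z 1) i0 j0) • lineP (X i0) (z 0) (z 1) +
      (plu (z 0) (z 1) i0 i / plu (z 0) (z 1) i0 j0) • lineP (X j0) (z 0) (z 1) := by
  rw [H54.lineP_X, H54.lineP_X, H54.lineP_X]
  simp only [Polynomial.smul_eq_C_mul]
  have e0 : z 0 i = plu (z 0) (z 1) i j0 / plu (z 0) (z 1) i0 j0 * z 0 i0 +
      plu (z 0) (z 1) i0 i / plu (z 0) (z 1) i0 j0 * z 0 j0 := by
    field_simp
    unfold plu
    ring
  have e1 : z 1 i = plu (z 0) (z 1) i j0 / plu (z 0) (z 1) i0 j0 * z 1 i0 +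
      plu (z 0) (z 1) i0 i / plu (z 0) (z 1) i0 j0 * z 1 j0 := by
    field_simp
    unfold plu
    ring
  conv_lhs => rw [e0, e1]
  simp only [map_add, map_mul]
  ring

/-- the matrix of the change of the pair of coordinates -/
noncomputable def CM (d : Fin c → ℕ) (i0 j0 i j : Fin (n + 1)) : Matrix (Mi d) (Mi d) L :=
  Matrix.blockDiagonal' fun m => symM (d m)
    (plu (z 0) (z 1) i j0 / plu (z 0) (z 1) i0 j0) (plu (z 0) (z 1) i0 i / plu (z 0) (z 1) i0 j0)
    (plu (z 0) (z 1) j j0 / plu (z 0) (z 1) i0 j0) (plu (z 0) (z 1) i0 j / plu (z 0) (z 1) i0 j0)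

theorem det_CM {i0 j0 : Fin (n + 1)} (h : plu (z 0) (z 1) i0 j0 ≠ 0) (i j : Fin (n + 1)) :
    (CM z d i0 j0 i j).det =
      (plu (z 0) (z 1) i j / plu (z 0) (z 1) i0 j0) ^ (∑ m, d m * (d m + 1) / 2) := by
  unfold CM
  rw [H54.det_blockDiag, ← Finset.prod_pow_eq_pow_sum]
  refine Finset.prod_congr rfl fun m _ => ?_
  rw [symM_det]
  congr 1
  field_simp
  unfold plu
  ring

/-- the difference of the monomials vanishes on the line -/
theorem mon_sub {i0 j0 : Fin (n + 1)} (h : plu (z 0) (z 1) i0 j0 ≠ 0) (i j : Fin (n + 1))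
    (q : Mi d) (m : Fin c) :
    lineP ((mon d L i j q - ∑ q', CM z d i0 j0 i j q' q • mon d L i0 j0 q') m)
      (z 0) (z 1) = 0 := by
  classical
  obtain ⟨mq, a⟩ := q
  rw [Fintype.sum_sigma]
  have hP : ∀ P Q : MvPolynomial (Fin (n + 1)) L, lineP (P - Q) (z 0) (z 1) =
      lineP P (z 0) (z 1) - lineP Q (z 0) (z 1) := fun P Q => map_sub _ _ _
  have hS : ∀ (ι : Type) (s : Finset ι) (f : ι → MvPolynomial (Fin (n + 1)) L),
      lineP (∑ i ∈ s, f i) (z 0) (z 1) = ∑ i ∈ s, lineP (f i) (z 0) (z 1) :=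
    fun ι s f => map_sum _ _ _
  have hM : ∀ (r : L) (P : MvPolynomial (Fin (n + 1)) L), lineP (r • P) (z 0) (z 1) =
      r • lineP P (z 0) (z 1) := fun r P => map_smul _ _ _
  have h0 : lineP (0 : MvPolynomial (Fin (n + 1)) L) (z 0) (z 1) = 0 := map_zero _
  rw [Pi.sub_apply, Finset.sum_apply]
  simp only [Finset.sum_apply, Pi.smul_apply]
  rw [hP, hS]
  simp only [hS, hM]
  have hne : ∀ m' : Fin c, m' ≠ mq → ∑ a' : Fin (d m' + 1),
      CM z d i0 j0 i j ⟨m', a'⟩ ⟨mq, a⟩ • lineP (mon d L i0 j0 ⟨m', a'⟩ m) (z 0) (z 1) = 0 := by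
    intro m' hm'
    refine Finset.sum_eq_zero fun a' _ => ?_
    unfold CM
    rw [Matrix.blockDiagonal'_apply_ne _ _ _ hm', zero_smul]
  rw [Finset.sum_eq_single mq (fun m' _ hm' => hne m' hm')
    (fun h => absurd (Finset.mem_univ mq) h)]
  by_cases hm : m = mq
  · subst hm
    have h1 := symM_id (lineP (X i0) (z 0) (z 1)) (lineP (X j0) (z 0) (z 1)) (d m)
      (plu (z 0) (z 1) i j0 / plu (z 0) (z 1) i0 j0) (plu (z 0) (z 1) i0 i / plu (z 0) (z 1) i0 j0)
      (plu (z 0) (z 1) j j0 / plu (z 0) (z 1) i0 j0) (plu (z 0) (z 1) i0 j / plu (z 0) (z 1) i0 j0)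
      a
    rw [← lineP_X_eq z h i, ← lineP_X_eq z h j] at h1
    unfold mon CM
    simp only [Pi.single_eq_same, Matrix.blockDiagonal'_apply_eq, H54.lineP_mul, H54.lineP_pow]
    rw [h1, sub_self]
  · have h2 : ∀ a', lineP (mon d L i0 j0 ⟨mq, a'⟩ m) (z 0) (z 1) = 0 := by
      intro a'
      unfold mon
      rw [Pi.single_eq_of_ne hm, h0]
    have h3 : lineP (mon d L i j ⟨mq, a⟩ m) (z 0) (z 1) = 0 := by
      unfold mon
      rw [Pi.single_eq_of_ne hm, h0]
    rw [h3]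
    simp only [h2, smul_zero, Finset.sum_const_zero, sub_zero]

theorem CM_le (v : Valuation L ℤᵐ⁰) {i0 j0 : Fin (n + 1)} (i j : Fin (n + 1)) {b : ℤᵐ⁰}
    (hb : ∀ i j, v (plu (z 0) (z 1) i j / plu (z 0) (z 1) i0 j0) ≤ b) (q' q : Mi d) :
    v (CM z d i0 j0 i j q' q) ≤ b ^ d q'.1 := by
  obtain ⟨m', a'⟩ := q'
  obtain ⟨m, a⟩ := q
  unfold CM
  by_cases h : m' = m
  · subst h
    rw [Matrix.blockDiagonal'_apply_eq]
    exact symM_le v (d m') (hb _ _) (hb _ _) (hb _ _) (hb _ _) a' a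
  · rw [Matrix.blockDiagonal'_apply_ne _ _ _ h, map_zero]
    exact zero_le

/-- the frame of the line at a pair of coordinates -/
noncomputable def zf (i j : Fin (n + 1)) (a : Fin 2) (r : Fin (n + 1)) : L :=
  if a = 0 then plu (z 0) (z 1) r j / plu (z 0) (z 1) i j
  else plu (z 0) (z 1) i r / plu (z 0) (z 1) i j

/-- the matrix of the basis in the frame -/
noncomputable def gf (i j : Fin (n + 1)) : Matrix (Fin 2) (Fin 2) L :=
  Matrix.of fun a b => if b = 0 then z a i else z a j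

theorem det_gf (i j : Fin (n + 1)) : (gf z i j).det = plu (z 0) (z 1) i j := by
  rw [Matrix.det_fin_two]
  unfold gf plu
  simp

theorem zf_eq {i j : Fin (n + 1)} (h : plu (z 0) (z 1) i j ≠ 0) (a : Fin 2) (r : Fin (n + 1)) :
    z a r = ∑ b, gf z i j a b * zf z i j b r := by
  rw [Fin.sum_univ_two]
  unfold gf zf
  simp only [Matrix.of_apply, if_true, one_ne_zero, if_false]
  field_simp
  fin_cases a
  · simp only [Fin.zero_eta]
    unfold plu
    ring
  · simp only [Fin.mk_one]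
    unfold plu
    ring

theorem ac1 (X Y A B C E Z : ℤᵐ⁰) : X * (Y * ((A * (B * C)) * E)) * Z =
    (Y * Z) * (X * ((A * (B * C)) * E)) := by ac_rfl

theorem ac2 (Y Z X A B C E : ℤᵐ⁰) : (Y * Z) * (X * ((A * (B * C)) * E)) =
    A * C * E * (X * B * Y) * Z := by ac_rfl

theorem local_aux (V Q P0 M : ℤᵐ⁰) (hP : P0 ≠ 0) (Δ r dm w κ N n : ℕ)
    (h : V * (Q / P0) ^ Δ ≤ Q ^ (n + 1) *
      (((Q / P0) ^ dm) ^ r * ((M * M) ^ w * (Q * M) ^ κ * M ^ N))) :
    V * Q ^ Δ * P0 ^ (r * dm) ≤ M ^ (2 * w + κ + N) * Q ^ (n + 1 + κ + r * dm) * P0 ^ Δ := by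
  have h6 := mul_le_mul' h (le_refl (P0 ^ (Δ + r * dm)))
  have e0 : V * Q ^ Δ * P0 ^ (r * dm) = V * (Q / P0) ^ Δ * P0 ^ (Δ + r * dm) := by
    rw [div_pow, pow_add, mul_assoc, mul_assoc, ← mul_assoc (Q ^ Δ / P0 ^ Δ),
      div_mul_cancel₀ _ (pow_ne_zero _ hP)]
  rw [e0]
  refine h6.trans (le_of_eq ?_)
  have e1 : ((Q / P0) ^ dm) ^ r * P0 ^ (Δ + r * dm) = Q ^ (r * dm) * P0 ^ Δ := by
    rw [← pow_mul, mul_comm dm r, div_pow, pow_add, mul_comm (P0 ^ Δ), ← mul_assoc,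
      div_mul_cancel₀ _ (pow_ne_zero _ hP)]
  have e2 : M ^ (2 * w + κ + N) = (M * M) ^ w * M ^ κ * M ^ N := by
    rw [pow_add, pow_add, ← pow_two, ← pow_mul]
  have e3 : Q ^ (n + 1 + κ + r * dm) = Q ^ (n + 1) * Q ^ κ * Q ^ (r * dm) := by
    rw [pow_add, pow_add]
  rw [mul_pow Q M κ, ac1, e1, ac2, e2, e3]

/-- module HBL -/
theorem hbl {i0 j0 : Fin (n + 1)} (h00 : plu (z 0) (z 1) i0 j0 ≠ 0)
    (S : PlaceSys L) (hS : S.IsProd) (B : S.V → ℕ) (hB : BD S D B) {w κ : ℕ}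
    (W : Fin w → Fin (n + 1) × Fin (n + 1))
    (A : Fin κ → Fin c → MvPolynomial (Fin (n + 1)) L) (hA : ∀ k, Adm d (A k))
    (hA' : ∀ p k m, CB (S.v p) (A k m) 1)
    (h : Fin κ → Fin (n + 1) × Fin (n + 1) × Fin (n + 1)) (S0 : Set (Mi d))
    (hli : LinearIndependent L (Sum.elim
      (colB D z W fun k => mulT (A k) (hT (z 0) (z 1) (h k).1 (h k).2.1 (h k).2.2))
      fun q : S0 => V2 D z (mon d L i0 j0 q.1)))
    (r : ℕ) (hr : r + S0.ncard = c + ∑ m, d m) (hcard : 4 + w + κ + S0.ncard = 2 * (n + 1))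
    (hsp : ∀ G : Fin c → MvPolynomial (Fin (n + 1)) L, (∀ m, (G m).IsHomogeneous (d m)) →
      (∀ m, lineP (G m) (z 0) (z 1) = 0) → V2 D z G ∈ Submodule.span L (Set.range
        (colB D z W fun k => mulT (A k) (hT (z 0) (z 1) (h k).1 (h k).2.1 (h k).2.2))))
    (dm : ℕ) (hdm : ∀ m, d m ≤ dm) :
    ((∑ m, d m * (d m + 1) / 2 : ℕ) : ℤ) * hL S (z 0) (z 1) ≤
      (2 * w + κ + (c + ∑ m, d m) : ℕ) * tot S B +
        (n + 1 + κ + r * dm : ℕ) * hL S (z 0) (z 1) := by
  classical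
  set G : Fin κ → Fin c → MvPolynomial (Fin (n + 1)) L :=
    fun k => mulT (A k) (hT (z 0) (z 1) (h k).1 (h k).2.1 (h k).2.2) with hG
  -- the square matrix
  have hMi : Fintype.card (Mi d) = c + ∑ m, d m := by
    rw [Fintype.card_sigma]
    simp only [Fintype.card_fin, Finset.sum_add_distrib, Finset.sum_const, Finset.card_univ,
      smul_eq_mul, mul_one]
    omega
  have hK : Fintype.card {q : Mi d // q ∉ S0} = r := by
    have h1 : Fintype.card {q : Mi d // q ∉ S0} = Fintype.card (Mi d) -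
        Fintype.card {q : Mi d // q ∈ S0} := Fintype.card_subtype_compl _
    have h2 : Fintype.card {q : Mi d // q ∈ S0} = S0.ncard := by
      rw [← Nat.card_eq_fintype_card]
      rfl
    rw [h1, h2, hMi]
    omega
  have e : Ci d w κ ≃ (Fin 2 × Fin (n + 1)) ⊕ {q : Mi d // q ∉ S0} := by
    refine Fintype.equivOfCardEq ?_
    rw [Fintype.card_sum, Fintype.card_sum, Fintype.card_sum, Fintype.card_sum, hK, hMi,
      Fintype.card_prod, Fintype.card_prod]
    simp only [Fintype.card_fin]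
    omega
  set μ := detF e (colZ D z {q // q ∉ S0} W G i0 j0
      fun q b => (Pi.single q 1 : Mi d → L) b.1) with hμdef
  have hμ : μ ≠ 0 := detF_ne_zero e _ (li_col D z W G i0 j0 S0 hli)
  set Δ := ∑ m, d m * (d m + 1) / 2 with hΔ
  -- the local inequality
  have hloc : ∀ p, S.v p μ * mxP S (z 0) (z 1) p ^ Δ * S.v p (plu (z 0) (z 1) i0 j0) ^ (r * dm) ≤
      exp (B p : ℤ) ^ (2 * w + κ + (c + ∑ m, d m)) *
        mxP S (z 0) (z 1) p ^ (n + 1 + κ + r * dm) * S.v p (plu (z 0) (z 1) i0 j0) ^ Δ := by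
    intro p
    obtain ⟨i, j, hij⟩ := exists_mxP S (z 0) (z 1) p
    have hq0 : mxP S (z 0) (z 1) p ≠ 0 := mxP_ne_zero S (z 0) (z 1) h00 p
    have hpl : plu (z 0) (z 1) i j ≠ 0 := fun h => hq0 (by rw [← hij, h, map_zero])
    have hle : ∀ i' j', S.v p (plu (z 0) (z 1) i' j') ≤ mxP S (z 0) (z 1) p :=
      le_mxP S (z 0) (z 1) p
    set Q := mxP S (z 0) (z 1) p with hQ
    set P0 := S.v p (plu (z 0) (z 1) i0 j0) with hP0
    have hP00 : P0 ≠ 0 := (map_ne_zero _).2 h00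
    have hP0Q : P0 ≤ Q := hle i0 j0
    set M : ℤᵐ⁰ := exp (B p : ℤ) with hMdef
    have hM : 1 ≤ M := by
      rw [hMdef, ← exp_zero]
      exact WithZero.exp_le_exp.2 (by positivity)
    have hdel : ∀ m I, I.degree = d m → ∀ f, S.v p f ≤ 1 → S.v p (D.del m I f) ≤ M :=
      fun m I hI f hf => hB.del p m I hI f hf
    have hF : ∀ m, CB (S.v p) (D.F m) M := fun m I => hB.F p m I
    -- the frame
    have hzf : ∀ a r, S.v p (zf z i j a r) ≤ 1 := by
      intro a r
      unfold zf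
      split_ifs
      · rw [map_div₀, hij]
        exact div_le_one_of_le₀ (hle _ _) zero_le
      · rw [map_div₀, hij]
        exact div_le_one_of_le₀ (hle _ _) zero_le
    have hlam : ∀ (q : Mi d) (b : {q : Mi d // q ∉ S0}),
        ∑ q', CM z d i0 j0 i j q' q * (Pi.single q' 1 : Mi d → L) b.1 =
          CM z d i0 j0 i j b.1 q := by
      intro q b
      rw [Finset.sum_eq_single b.1]
      · rw [Pi.single_eq_same, mul_one]
      · intro b' _ hb'
        rw [Pi.single_eq_of_ne (Ne.symm hb'), mul_zero]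
      · intro h; exact absurd (Finset.mem_univ _) h
    have h1 := detF_pair D z W G e i0 j0 i j (fun q b => (Pi.single q 1 : Mi d → L) b.1)
      (CM z d i0 j0 i j) (fun q => by
        rw [← V2_smul_sum D z, ← V2_sub]
        refine hsp _ (fun m => ?_) (fun m => mon_sub z h00 i j q m)
        rw [Pi.sub_apply, Finset.sum_apply]
        refine (hom_mon i j q m).sub ?_
        refine IsHomogeneous.sum _ _ _ fun q' _ => ?_
        rw [Pi.smul_apply, smul_eq_C_mul]
        have := (isHomogeneous_C (Fin (n + 1)) (CM z d i0 j0 i j q' q)).mul (hom_mon i0 j0 q' m)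
        rwa [zero_add] at this)
    rw [det_CM z h00, ← hμdef] at h1
    simp only [hlam] at h1
    have h2 := detF_loc D z (zf z i j) (gf z i j) (zf_eq z hpl) (by rw [det_gf]; exact hpl) e W G
      i j (fun q b => CM z d i0 j0 i j b.1 q)
    rw [h1, det_gf] at h2
    -- the bound of the determinant
    have hβ : ∀ i' j', S.v p (plu (z 0) (z 1) i' j' / plu (z 0) (z 1) i0 j0) ≤ Q / P0 := by
      intro i' j'
      rw [map_div₀]
      exact div_le_div_of_nonneg_right (hle _ _) zero_le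
    have hβ1 : 1 ≤ Q / P0 := by
      rw [one_le_div₀ (zero_lt_iff.2 hP00)]
      exact hP0Q
    have h3 := v_detF_le (S.v p) e (colZ D (zf z i j) {q // q ∉ S0} W G i j
        fun q b => CM z d i0 j0 i j b.1 q)
      (Sum.elim (fun _ => 1) (Sum.elim (Sum.elim (fun _ => M * M) fun _ => Q * M) fun _ => M))
      (Sum.elim (fun _ => 1) fun _ => (Q / P0) ^ dm) ?_
    · simp only [Fintype.prod_sum_type, Sum.elim_inl, Sum.elim_inr, Finset.prod_const_one,
        Finset.prod_const, Finset.card_univ, Fintype.card_fin, one_mul] at h3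
      rw [hK, hMi] at h3
      have h4 := congrArg (S.v p) h2
      rw [map_mul, map_mul, map_pow, map_pow, map_div₀, hij, ← hP0] at h4
      have h5 : S.v p μ * (Q / P0) ^ Δ ≤ Q ^ (n + 1) *
          (((Q / P0) ^ dm) ^ r * ((M * M) ^ w * (Q * M) ^ κ * M ^ (c + ∑ m, d m))) := by
        rw [h4]
        exact mul_le_mul' le_rfl h3
      exact local_aux _ _ _ _ hP00 _ _ _ _ _ _ _ h5
    · have hMM : 1 ≤ M * M := by
        calc (1 : ℤᵐ⁰) = 1 * 1 := (one_mul 1).symm
          _ ≤ _ := mul_le_mul' hM hM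
      rintro (q | ((k | k) | q)) (ρ | b)
      · simp only [colZ, Sum.elim_inl, one_mul]
        unfold fx
        split_ifs
        · exact hzf _ _
        · rw [map_zero]; exact zero_le
      · simp only [colZ, Sum.elim_inl, Sum.elim_inr, Pi.zero_apply, map_zero]
        exact zero_le
      · simp only [colZ, Sum.elim_inl, Sum.elim_inr, one_mul]
        exact W2_bound D _ hM hdel hF hzf (W k) ρ
      · simp only [colZ, Sum.elim_inl, Sum.elim_inr, Pi.zero_apply, map_zero]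
        exact zero_le
      · simp only [colZ, Sum.elim_inl, Sum.elim_inr, one_mul]
        refine V2_bound D _ hdel hzf (G k) (fun m => ?_) (fun m => ?_) ρ
        · rw [hG]
          exact deg_mulT (hA k) (hom_hT _ _ _ _ _) m
        · rw [hG]
          have := (hA' p k m).mul _ (CB_hT (z 0) (z 1) S p (h k).1 (h k).2.1 (h k).2.2)
          rw [one_mul] at this
          exact this
      · simp only [colZ, Sum.elim_inl, Sum.elim_inr, Pi.zero_apply, map_zero]
        exact zero_le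
      · simp only [colZ, Sum.elim_inl, Sum.elim_inr, one_mul]
        have := V2_bound D (zf z i j) hdel hzf (mon d L i j q)
          (fun m => deg_of_hom (hom_mon i j q m)) (fun m => CB_mon i j q m) ρ
        rwa [one_mul] at this
      · simp only [colZ, Sum.elim_inr]
        refine (CM_le z (S.v p) i j hβ b.1 q).trans ?_
        calc (Q / P0) ^ d b.1.1 ≤ (Q / P0) ^ dm := pow_le_pow_right' hβ1 (hdm _)
          _ = (Q / P0) ^ dm * 1 := (mul_one _).symm
          _ ≤ _ := mul_le_mul' le_rfl hM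
  exact glob_q S (z 0) (z 1) hS h00 B hB.fin μ hμ Δ _ _ _ _ hloc

end main

end Pool.Agent.Lines.H26
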