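import Pool.Agent.Lib.MP_c7af3c_ag.SHARP.H26.Pair
import Pool.Agent.Lib.MP_c7af3c_ag.SHARP.H26.LineH

/-!
# MP_c7af3c_ag, project LINES: the determinant of a line, algebraic part (helper26)
-/

set_option autoImplicit false
set_option linter.unusedSectionVars false

namespace Pool.Agent.Lines.H26

open MvPolynomial WithZero Matrix Pool.Agent.Gen Pool.Agent.Sharp

/-! ### determinants of families of vectors -/

section detF
variable {L : Type} [Field L] {ι R : Type} [Fintype ι] [DecidableEq ι] [Fintype R] [DecidableEq R]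

/-- the determinant of a family of vectors -/
noncomputable def detF (e : ι ≃ R) (v : ι → R → L) : L :=
  Matrix.det (Matrix.of fun a k => v k (e a))

/-- change of columns -/
theorem detF_chg (e : ι ≃ R) (v v' : ι → R → L) (T : Matrix ι ι L)
    (h : ∀ k, v k = ∑ k', T k' k • v' k') : detF e v = detF e v' * T.det := by
  unfold detF
  rw [← Matrix.det_mul]
  congr 1
  ext a k
  rw [Matrix.mul_apply, Matrix.of_apply, h k, Finset.sum_apply]
  refine Finset.sum_congr rfl fun k' _ => ?_
  rw [Pi.smul_apply, smul_eq_mul, Matrix.of_apply, mul_comm]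

/-- a linear map applied to all columns -/
theorem detF_map (e : ι ≃ R) (v : ι → R → L) (P : Matrix R R L) :
    detF e (fun k => P.mulVec (v k)) = P.det * detF e v := by
  unfold detF
  rw [← Matrix.det_submatrix_equiv_self e P, ← Matrix.det_mul]
  congr 1
  ext a k
  rw [Matrix.mul_apply, Matrix.of_apply]
  change ∑ r, P (e a) r * v k r = _
  rw [← e.sum_comp]
  rfl

/-- change of the last columns -/
theorem detF_last {A B : Type} [Fintype A] [DecidableEq A] [Fintype B] [DecidableEq B]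
    (e : (A ⊕ B) ≃ R) (u : A → R → L) (v v' : B → R → L) (C : Matrix B B L) (T : Matrix A B L)
    (h : ∀ q, v q = ∑ q', C q' q • v' q' + ∑ k, T k q • u k) :
    detF e (Sum.elim u v) = detF e (Sum.elim u v') * C.det := by
  have h1 : (Matrix.fromBlocks 1 T 0 C).det = C.det := by
    rw [Matrix.det_fromBlocks_zero₂₁, Matrix.det_one, one_mul]
  rw [← h1]
  refine detF_chg e _ _ _ ?_
  rintro (k | q)
  · rw [Fintype.sum_sum_type, Sum.elim_inl, Finset.sum_eq_single k]
    · simp
    · intro b _ hb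
      rw [Matrix.fromBlocks_apply₁₁, Matrix.one_apply_ne hb, zero_smul]
    · intro h; exact absurd (Finset.mem_univ k) h
  · rw [Fintype.sum_sum_type, Sum.elim_inr, h q, add_comm]
    simp only [Matrix.fromBlocks_apply₁₂, Matrix.fromBlocks_apply₂₂, Sum.elim_inl, Sum.elim_inr]

/-- change of the first columns -/
theorem detF_first {A B : Type} [Fintype A] [DecidableEq A] [Fintype B] [DecidableEq B]
    (e : (A ⊕ B) ≃ R) (u u' : A → R → L) (v v' : B → R → L) (U : Matrix A A L)
    (T : Matrix A B L) (h1 : ∀ q, u q = ∑ q', U q' q • u' q')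
    (h2 : ∀ q, v q = v' q + ∑ k, T k q • u' k) :
    detF e (Sum.elim u v) = detF e (Sum.elim u' v') * U.det := by
  have h3 : (Matrix.fromBlocks U T 0 1).det = U.det := by
    rw [Matrix.det_fromBlocks_zero₂₁, Matrix.det_one, mul_one]
  rw [← h3]
  refine detF_chg e _ _ _ ?_
  rintro (k | q)
  · rw [Fintype.sum_sum_type, Sum.elim_inl, h1 k]
    simp
  · rw [Fintype.sum_sum_type, Sum.elim_inr, h2 q]
    simp only [Matrix.fromBlocks_apply₁₂, Matrix.fromBlocks_apply₂₂, Sum.elim_inl, Sum.elim_inr]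
    rw [add_comm]
    congr 1
    rw [Finset.sum_eq_single q]
    · rw [Matrix.one_apply_eq, one_smul]
    · intro b _ hb
      rw [Matrix.one_apply_ne hb, zero_smul]
    · intro h; exact absurd (Finset.mem_univ q) h

theorem detF_ne_zero (e : ι ≃ R) (v : ι → R → L) (h : LinearIndependent L v) :
    detF e v ≠ 0 := by
  have hli2 : LinearIndependent L (fun k a => v k (e a)) :=
    h.map' (LinearMap.funLeft L L e) (LinearMap.ker_eq_bot.2
      (LinearMap.funLeft_injective_of_surjective L L e e.surjective))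
  unfold detF
  have h3 : (Matrix.of fun a k => v k (e a)) =
      Matrix.transpose (Matrix.of fun k a => v k (e a)) := rfl
  rw [h3, Matrix.det_transpose]
  have h4 : IsUnit (Matrix.of fun k a => v k (e a)) :=
    Matrix.linearIndependent_rows_iff_isUnit.1 hli2
  exact ((Matrix.isUnit_iff_isUnit_det _).1 h4).ne_zero

/-- the ultrametric bound with weights of rows and columns -/
theorem v_detF_le (v : Valuation L ℤᵐ⁰) (e : ι ≃ R) (w : ι → R → L) (σ : ι → ℤᵐ⁰)
    (ρ : R → ℤᵐ⁰) (h : ∀ k r, v (w k r) ≤ ρ r * σ k) :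
    v (detF e w) ≤ (∏ r, ρ r) * ∏ k, σ k := by
  unfold detF
  rw [Matrix.det_apply]
  refine v.map_sum_le fun τ _ => ?_
  have h1 : v (Equiv.Perm.sign τ • ∏ i, (Matrix.of fun a k => w k (e a)) (τ i) i) =
      ∏ i, v ((Matrix.of fun a k => w k (e a)) (τ i) i) := by
    rcases Int.units_eq_one_or (Equiv.Perm.sign τ) with h | h
    · rw [h, one_smul, map_prod]
    · rw [h, Units.neg_smul, one_smul, Valuation.map_neg, map_prod]
  rw [h1]
  have h2 : (∏ r, ρ r) * ∏ k, σ k = ∏ k, ρ (e (τ k)) * σ k := by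
    rw [Finset.prod_mul_distrib]
    congr 1
    rw [← e.prod_comp, ← Equiv.prod_comp τ]
  rw [h2]
  exact Finset.prod_le_prod' fun i _ => h _ _

end detF

/-! ### the columns -/

section cols
variable {L : Type} [Field L] {n c : ℕ} {d : Fin c → ℕ} (D : DSys L n c d)
  (z : Fin 2 → Fin (n + 1) → L)

/-- fixed columns -/
def fx (q : Fin 2 × Fin 2) : Fin 2 × Fin (n + 1) → L := fun ρ => if ρ.1 = q.1 then z q.2 ρ.2 else 0

/-- the columns `W` for a line -/
noncomputable def W2 (q : Fin (n + 1) × Fin (n + 1)) : Fin 2 × Fin (n + 1) → L :=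
  fun ρ => WT D (z ρ.1) q.1 q.2 ρ.2

/-- the columns `V` for a line -/
noncomputable def V2 (G : Fin c → MvPolynomial (Fin (n + 1)) L) : Fin 2 × Fin (n + 1) → L :=
  fun ρ => VT D (z ρ.1) G ρ.2

/-- the index set of the monomials -/
abbrev Mi (d : Fin c → ℕ) : Type := Σ m : Fin c, Fin (d m + 1)

/-- the monomials in two variables -/
noncomputable def mon (d : Fin c → ℕ) (L : Type) [Field L] {n : ℕ} (i j : Fin (n + 1))
    (q : Mi d) : Fin c → MvPolynomial (Fin (n + 1)) L :=
  Pi.single q.1 (X i ^ (q.2 : ℕ) * X j ^ (d q.1 - q.2))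

theorem V2_add (G H : Fin c → MvPolynomial (Fin (n + 1)) L) :
    V2 D z (G + H) = V2 D z G + V2 D z H := by
  funext ρ
  unfold V2
  rw [map_add]
  rfl

theorem V2_smul (a : L) (G : Fin c → MvPolynomial (Fin (n + 1)) L) :
    V2 D z (a • G) = a • V2 D z G := by
  funext ρ
  unfold V2
  rw [map_smul]
  rfl

theorem V2_sub (G H : Fin c → MvPolynomial (Fin (n + 1)) L) :
    V2 D z (G - H) = V2 D z G - V2 D z H := by
  funext ρ
  unfold V2
  rw [map_sub]
  rfl

theorem V2_sum {ι : Type} (s : Finset ι) (G : ι → Fin c → MvPolynomial (Fin (n + 1)) L) :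
    V2 D z (∑ i ∈ s, G i) = ∑ i ∈ s, V2 D z (G i) := by
  funext ρ
  unfold V2
  rw [map_sum, Finset.sum_apply, Finset.sum_apply]

/-- the column index set -/
abbrev Ci (d : Fin c → ℕ) (w κ : ℕ) : Type :=
  (Fin 2 × Fin 2) ⊕ ((Fin w ⊕ Fin κ) ⊕ Mi d)

/-- the columns (with `K` extra rows) -/
noncomputable def colZ (K : Type) {w κ : ℕ} (W : Fin w → Fin (n + 1) × Fin (n + 1))
    (G : Fin κ → Fin c → MvPolynomial (Fin (n + 1)) L) (i j : Fin (n + 1))
    (lam : Mi d → K → L) : Ci d w κ → (Fin 2 × Fin (n + 1)) ⊕ K → L :=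
  Sum.elim (fun q => Sum.elim (fx z q) 0)
    (Sum.elim (Sum.elim (fun k => Sum.elim (W2 D z (W k)) 0)
      fun k => Sum.elim (V2 D z (G k)) 0)
      fun q => Sum.elim (V2 D z (mon d L i j q)) (lam q))

/-- the first columns -/
noncomputable def colB {w κ : ℕ} (W : Fin w → Fin (n + 1) × Fin (n + 1))
    (G : Fin κ → Fin c → MvPolynomial (Fin (n + 1)) L) :
    (Fin 2 × Fin 2) ⊕ (Fin w ⊕ Fin κ) → Fin 2 × Fin (n + 1) → L :=
  Sum.elim (fx z) (Sum.elim (fun k => W2 D z (W k)) fun k => V2 D z (G k))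

end cols

/-! ### the global determinant -/

section glob
variable {L : Type} [Field L] {n c : ℕ} {d : Fin c → ℕ} (D : DSys L n c d)
  (z : Fin 2 → Fin (n + 1) → L) {w κ : ℕ} (W : Fin w → Fin (n + 1) × Fin (n + 1))
  (G : Fin κ → Fin c → MvPolynomial (Fin (n + 1)) L)

/-- the columns with the dual rows are independent -/
theorem li_col (i0 j0 : Fin (n + 1)) (S0 : Set (Mi d))
    (hli : LinearIndependent L (Sum.elim (colB D z W G)
      fun q : S0 => V2 D z (mon d L i0 j0 q.1))) :
    LinearIndependent L (colZ D z {q // q ∉ S0} W G i0 j0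
      fun q b => (Pi.single q 1 : Mi d → L) b.1) := by
  classical
  rw [Fintype.linearIndependent_iff]
  intro g hg
  rw [Fintype.sum_sum_type, Fintype.sum_sum_type] at hg
  have h1 : ∀ q : Mi d, q ∉ S0 → g (Sum.inr (Sum.inr q)) = 0 := by
    intro q hq
    have h2 := congrFun hg (Sum.inr ⟨q, hq⟩)
    simp only [Pi.add_apply, Finset.sum_apply, Pi.smul_apply, smul_eq_mul, colZ, Sum.elim_inl,
      Sum.elim_inr, Pi.zero_apply, mul_zero, Finset.sum_const_zero, zero_add,
      Fintype.sum_sum_type, add_zero] at h2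
    rw [Finset.sum_eq_single q] at h2
    · simpa using h2
    · intro b _ hb
      rw [Pi.single_eq_of_ne (Ne.symm hb), mul_zero]
    · intro h; exact absurd (Finset.mem_univ q) h
  have h3 := Fintype.linearIndependent_iff.1 hli
    (Sum.elim (Sum.elim (fun q => g (Sum.inl q)) fun k => g (Sum.inr (Sum.inl k)))
      fun q => g (Sum.inr (Sum.inr q.1))) (by
    funext ρ
    have h2 := congrFun hg (Sum.inl ρ)
    simp only [Pi.add_apply, Finset.sum_apply, Pi.smul_apply, smul_eq_mul, colZ, Sum.elim_inl,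
      Sum.elim_inr, Pi.zero_apply, Fintype.sum_sum_type] at h2
    rw [← Fintype.sum_subtype_add_sum_subtype (fun q => q ∈ S0)
      (fun q => g (Sum.inr (Sum.inr q)) * V2 D z (mon d L i0 j0 q) ρ)] at h2
    have h4 : ∑ q : {q // q ∉ S0}, g (Sum.inr (Sum.inr q.1)) * V2 D z (mon d L i0 j0 q.1) ρ = 0 :=
      Finset.sum_eq_zero fun q _ => by rw [h1 q.1 q.2, zero_mul]
    rw [h4, add_zero] at h2
    simp only [Fintype.sum_sum_type, Sum.elim_inl, Sum.elim_inr, Finset.sum_apply,
      Pi.smul_apply, smul_eq_mul, Pi.zero_apply, colB]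
    rw [← h2]
    ring)
  rintro (q | (k | q))
  · exact h3 (Sum.inl (Sum.inl q))
  · exact h3 (Sum.inl (Sum.inr k))
  · by_cases hq : q ∈ S0
    · exact h3 (Sum.inr ⟨q, hq⟩)
    · exact h1 q hq

/-- `colZ` for another pair of coordinates -/
theorem detF_pair {K : Type} [Fintype K] [DecidableEq K]
    (e : Ci d w κ ≃ (Fin 2 × Fin (n + 1)) ⊕ K) (i0 j0 i j : Fin (n + 1)) (lam : Mi d → K → L)
    (C : Matrix (Mi d) (Mi d) L)
    (hsp : ∀ q, V2 D z (mon d L i j q) - ∑ q', C q' q • V2 D z (mon d L i0 j0 q') ∈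
      Submodule.span L (Set.range (colB D z W G))) :
    detF e (colZ D z K W G i j fun q b => ∑ q', C q' q * lam q' b) =
      detF e (colZ D z K W G i0 j0 lam) * C.det := by
  classical
  have h1 : ∀ q, ∃ t : (Fin 2 × Fin 2) ⊕ (Fin w ⊕ Fin κ) → L,
      V2 D z (mon d L i j q) = ∑ q', C q' q • V2 D z (mon d L i0 j0 q') +
        ∑ k, t k • colB D z W G k := by
    intro q
    have h2 := hsp q
    rw [Submodule.mem_span_range_iff_exists_fun] at h2
    obtain ⟨t, ht⟩ := h2
    exact ⟨t, by rw [ht]; abel⟩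
  choose t ht using h1
  set a := (Equiv.sumAssoc (Fin 2 × Fin 2) (Fin w ⊕ Fin κ) (Mi d)) with ha
  have key : ∀ (i j : Fin (n + 1)) (lam : Mi d → K → L),
      detF e (colZ D z K W G i j lam) = detF (a.trans e) (Sum.elim
        (fun k => (Sum.elim (colB D z W G k) 0 : (Fin 2 × Fin (n + 1)) ⊕ K → L))
        fun q => Sum.elim (V2 D z (mon d L i j q)) (lam q)) := by
    intro i j lam
    unfold detF
    rw [← Matrix.det_submatrix_equiv_self a]
    congr 1
    ext k k'
    simp only [Matrix.submatrix_apply, Matrix.of_apply, Equiv.trans_apply]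
    rcases k' with (k' | k') | q
    · rfl
    · rcases k' with k' | k' <;> rfl
    · rfl
  rw [key, key]
  refine detF_last (a.trans e) _ _ _ C (Matrix.of fun k q => t q k) fun q => ?_
  funext ρ
  rcases ρ with ρ | b
  · have h2 := congrFun (ht q) ρ
    simp only [Pi.add_apply, Finset.sum_apply, Pi.smul_apply, smul_eq_mul] at h2
    simp only [Pi.add_apply, Finset.sum_apply, Pi.smul_apply, smul_eq_mul,
      Sum.elim_inl, Matrix.of_apply]
    exact h2
  · simp only [Pi.add_apply, Finset.sum_apply, Pi.smul_apply, smul_eq_mul,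
      Sum.elim_inr, Pi.zero_apply, mul_zero, Finset.sum_const_zero, add_zero]

end glob

end Pool.Agent.Lines.H26
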