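import Pool.Agent.Lib.MP_c7af3c_ag.LINES.H26.HblAlg

/-!
# MP_c7af3c_ag, project LINES: change of the basis of the line (helper26)
-/

set_option autoImplicit false
set_option linter.unusedSectionVars false

namespace Pool.Agent.Lines.H26

open MvPolynomial WithZero Matrix Kronecker Pool.Agent.Gen Pool.Agent.Sharp

section loc
variable {L : Type} [Field L] {n c : ℕ} {d : Fin c → ℕ} (D : DSys L n c d)
  (z z' : Fin 2 → Fin (n + 1) → L) (g : Matrix (Fin 2) (Fin 2) L)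

/-- the block transformation -/
noncomputable def Phi (n : ℕ) (g : Matrix (Fin 2) (Fin 2) L) :
    Matrix (Fin 2 × Fin (n + 1)) (Fin 2 × Fin (n + 1)) L :=
  g ⊗ₖ (1 : Matrix (Fin (n + 1)) (Fin (n + 1)) L)

theorem det_Phi : (Phi n g).det = g.det ^ (n + 1) := by
  unfold Phi
  rw [Matrix.det_kronecker, Matrix.det_one, one_pow, mul_one, Fintype.card_fin]

theorem Phi_mulVec (u : Fin 2 × Fin (n + 1) → L) (ρ : Fin 2 × Fin (n + 1)) :
    (Phi n g).mulVec u ρ = ∑ b, g ρ.1 b * u (b, ρ.2) := by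
  unfold Phi
  change ∑ ρ', (g ⊗ₖ (1 : Matrix (Fin (n + 1)) (Fin (n + 1)) L)) ρ ρ' * u ρ' = _
  rw [Fintype.sum_prod_type]
  refine Finset.sum_congr rfl fun b _ => ?_
  rw [Finset.sum_eq_single ρ.2]
  · rw [Matrix.kroneckerMap_apply, Matrix.one_apply_eq, mul_one]
  · intro r _ hr
    rw [Matrix.kroneckerMap_apply, Matrix.one_apply_ne (Ne.symm hr), mul_zero, zero_mul]
  · intro h; exact absurd (Finset.mem_univ _) h

/-- the transformation with the extra rows -/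
noncomputable def PhiK (n : ℕ) (K : Type) [DecidableEq K] (g : Matrix (Fin 2) (Fin 2) L) :
    Matrix ((Fin 2 × Fin (n + 1)) ⊕ K) ((Fin 2 × Fin (n + 1)) ⊕ K) L :=
  Matrix.fromBlocks (Phi n g) 0 0 1

theorem det_PhiK (K : Type) [Fintype K] [DecidableEq K] : (PhiK n K g).det = g.det ^ (n + 1) := by
  unfold PhiK
  rw [Matrix.det_fromBlocks_zero₂₁, Matrix.det_one, mul_one, det_Phi]

theorem PhiK_mulVec (K : Type) [Fintype K] [DecidableEq K] (u : Fin 2 × Fin (n + 1) → L)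
    (l : K → L) :
    (PhiK n K g).mulVec (Sum.elim u l) = Sum.elim ((Phi n g).mulVec u) l := by
  unfold PhiK
  rw [Matrix.fromBlocks_mulVec]
  funext ρ
  rcases ρ with ρ | b
  · simp [Function.comp_def]
  · simp [Function.comp_def]

theorem Phi_fx (q : Fin 2 × Fin 2) (ρ : Fin 2 × Fin (n + 1)) :
    (Phi n g).mulVec (fx z' q) ρ = g ρ.1 q.1 * z' q.2 ρ.2 := by
  rw [Phi_mulVec]
  unfold fx
  simp

variable (hz : ∀ a r, z a r = ∑ b, g a b * z' b r)
include hz

/-- the fixed columns -/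
theorem fx_eq (hg : g.det ≠ 0) (q : Fin 2 × Fin 2) :
    fx z q = ∑ q', (g⁻¹ ⊗ₖ gᵀ) q' q • (Phi n g).mulVec (fx z' q') := by
  funext ρ
  rw [Finset.sum_apply, Fintype.sum_prod_type]
  have hgg : g * g⁻¹ = 1 := Matrix.mul_nonsing_inv g (isUnit_iff_ne_zero.2 hg)
  have h1 : ∀ a', ∑ b', ((g⁻¹ ⊗ₖ gᵀ) (a', b') q • (Phi n g).mulVec (fx z' (a', b'))) ρ =
      (g ρ.1 a' * g⁻¹ a' q.1) * z q.2 ρ.2 := by
    intro a'
    rw [hz q.2 ρ.2, Finset.mul_sum]
    refine Finset.sum_congr rfl fun b' _ => ?_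
    rw [Pi.smul_apply, smul_eq_mul, Phi_fx, Matrix.kroneckerMap_apply, Matrix.transpose_apply]
    ring
  rw [Finset.sum_congr rfl fun a' _ => h1 a', ← Finset.sum_mul, ← Matrix.mul_apply, hgg]
  unfold fx
  by_cases h : ρ.1 = q.1
  · rw [if_pos h, h, Matrix.one_apply_eq, one_mul]
  · rw [if_neg h, Matrix.one_apply_ne h, zero_mul]

/-- operator columns -/
theorem op_eq (hg : g.det ≠ 0) (v v' : Fin 2 × Fin (n + 1) → L) (θ : Fin 2 → Fin 2 → L)
    (h : ∀ ρ, v ρ = ∑ b, g ρ.1 b * v' (b, ρ.2) + ∑ b, θ ρ.1 b * z' b ρ.2) :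
    v = (Phi n g).mulVec v' +
      ∑ q' : Fin 2 × Fin 2, (∑ α, g⁻¹ q'.1 α * θ α q'.2) • (Phi n g).mulVec (fx z' q') := by
  funext ρ
  rw [Pi.add_apply, Phi_mulVec, h ρ]
  congr 1
  rw [Finset.sum_apply, Fintype.sum_prod_type, Finset.sum_comm]
  refine Finset.sum_congr rfl fun b _ => ?_
  have hgg : g * g⁻¹ = 1 := Matrix.mul_nonsing_inv g (isUnit_iff_ne_zero.2 hg)
  have h1 : ∀ a', ((∑ α, g⁻¹ (a', b).1 α * θ α (a', b).2) •
      (Phi n g).mulVec (fx z' (a', b))) ρ = ∑ α, (g ρ.1 a' * g⁻¹ a' α) * (θ α b * z' b ρ.2) := by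
    intro a'
    rw [Pi.smul_apply, smul_eq_mul, Phi_fx, Finset.sum_mul]
    refine Finset.sum_congr rfl fun α _ => ?_
    ring
  rw [Finset.sum_congr rfl fun a' _ => h1 a', Finset.sum_comm]
  have h2 : ∀ α, ∑ a', (g ρ.1 a' * g⁻¹ a' α) * (θ α b * z' b ρ.2) =
      (1 : Matrix (Fin 2) (Fin 2) L) ρ.1 α * (θ α b * z' b ρ.2) := by
    intro α
    rw [← Finset.sum_mul, ← Matrix.mul_apply, hgg]
  rw [Finset.sum_congr rfl fun α _ => h2 α, Finset.sum_eq_single ρ.1]
  · rw [Matrix.one_apply_eq, one_mul]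
  · intro α _ hα
    rw [Matrix.one_apply_ne (Ne.symm hα), zero_mul]
  · intro h; exact absurd (Finset.mem_univ _) h

/-- derivations of the coordinates -/
theorem del_z (m : Fin c) (I : Fin (n + 1) →₀ ℕ) (a : Fin 2) (r : Fin (n + 1)) :
    D.del m I (z a r) = ∑ b, g a b * D.del m I (z' b r) + ∑ b, D.del m I (g a b) * z' b r := by
  rw [hz a r, map_sum, ← Finset.sum_add_distrib]
  refine Finset.sum_congr rfl fun b _ => ?_
  rw [Derivation.leibniz]
  simp only [smul_eq_mul]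
  ring

theorem V2_eq (G : Fin c → MvPolynomial (Fin (n + 1)) L) :
    ∃ θ : Fin 2 → Fin 2 → L, ∀ ρ, V2 D z G ρ = ∑ b, g ρ.1 b * V2 D z' G (b, ρ.2) +
      ∑ b, θ ρ.1 b * z' b ρ.2 := by
  refine ⟨fun a b => ∑ m, ∑ I ∈ (G m).support, coeff I (G m) * D.del m I (g a b), fun ρ => ?_⟩
  have h1 : ∀ (x : Fin (n + 1) → L) (r : Fin (n + 1)), VT D x G r =
      ∑ m, ∑ I ∈ (G m).support, coeff I (G m) * D.del m I (x r) := by
    intro x r
    rw [VT_apply, Finset.sum_apply]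
    exact Finset.sum_congr rfl fun m _ => D.V_apply x m (G m) r
  unfold V2
  simp only [h1]
  have h2 : ∀ b, g ρ.1 b * ∑ m, ∑ I ∈ (G m).support, coeff I (G m) * D.del m I (z' b ρ.2) =
      ∑ m, ∑ I ∈ (G m).support, coeff I (G m) * (g ρ.1 b * D.del m I (z' b ρ.2)) := by
    intro b
    rw [Finset.mul_sum]
    refine Finset.sum_congr rfl fun m _ => ?_
    rw [Finset.mul_sum]
    exact Finset.sum_congr rfl fun I _ => by ring
  have h3 : ∀ b, (∑ m, ∑ I ∈ (G m).support, coeff I (G m) * D.del m I (g ρ.1 b)) * z' b ρ.2 =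
      ∑ m, ∑ I ∈ (G m).support, coeff I (G m) * (D.del m I (g ρ.1 b) * z' b ρ.2) := by
    intro b
    rw [Finset.sum_mul]
    refine Finset.sum_congr rfl fun m _ => ?_
    rw [Finset.sum_mul]
    exact Finset.sum_congr rfl fun I _ => by ring
  rw [Finset.sum_congr rfl fun b _ => h2 b, Finset.sum_congr rfl fun b _ => h3 b,
    Finset.sum_comm, Finset.sum_comm (s := Finset.univ) (t := Finset.univ)
      (f := fun b m => ∑ I ∈ (G m).support, coeff I (G m) * (D.del m I (g ρ.1 b) * z' b ρ.2)),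
    ← Finset.sum_add_distrib]
  refine Finset.sum_congr rfl fun m _ => ?_
  rw [Finset.sum_comm, Finset.sum_comm (s := Finset.univ) (t := (G m).support)
      (f := fun b I => coeff I (G m) * (D.del m I (g ρ.1 b) * z' b ρ.2)),
    ← Finset.sum_add_distrib]
  refine Finset.sum_congr rfl fun I _ => ?_
  rw [del_z D z z' g hz, mul_add, Finset.mul_sum, Finset.mul_sum]

theorem W2_eq (q : Fin (n + 1) × Fin (n + 1)) :
    ∃ θ : Fin 2 → Fin 2 → L, ∀ ρ, W2 D z q ρ = ∑ b, g ρ.1 b * W2 D z' q (b, ρ.2) +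
      ∑ b, θ ρ.1 b * z' b ρ.2 := by
  obtain ⟨θ, hθ⟩ := V2_eq D z z' g hz fun m => X q.2 * pderiv q.1 (D.F m)
  refine ⟨θ, fun ρ => ?_⟩
  have h1 := hθ ρ
  unfold V2 at h1
  unfold W2 WT
  simp only [Pi.add_apply, Pi.smul_apply, smul_eq_mul, mul_add, Finset.sum_add_distrib]
  rw [h1, hz ρ.1 q.2, Finset.sum_mul]
  have h2 : ∀ b, g ρ.1 b * z' b q.2 * (Pi.single q.1 (1 : L) : Fin (n + 1) → L) ρ.2 =
      g ρ.1 b * (z' b q.2 * (Pi.single q.1 (1 : L) : Fin (n + 1) → L) ρ.2) := fun b => by ring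
  rw [Finset.sum_congr rfl fun b _ => h2 b]
  ring

/-- change of the basis of the line -/
theorem detF_loc (hg : g.det ≠ 0) {K : Type} [Fintype K] [DecidableEq K] {w κ : ℕ}
    (e : Ci d w κ ≃ (Fin 2 × Fin (n + 1)) ⊕ K)
    (W : Fin w → Fin (n + 1) × Fin (n + 1))
    (G : Fin κ → Fin c → MvPolynomial (Fin (n + 1)) L) (i j : Fin (n + 1)) (lam : Mi d → K → L) :
    detF e (colZ D z K W G i j lam) = g.det ^ (n + 1) * detF e (colZ D z' K W G i j lam) := by
  classical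
  choose θV hθV using V2_eq D z z' g hz
  choose θW hθW using W2_eq D z z' g hz
  have hU : (g⁻¹ ⊗ₖ gᵀ).det = 1 := by
    rw [Matrix.det_kronecker, Matrix.det_transpose, Matrix.det_nonsing_inv,
      Ring.inverse_eq_inv', Fintype.card_fin, inv_pow, inv_mul_cancel₀ (pow_ne_zero _ hg)]
  have h1 := detF_first e
    (fun q : Fin 2 × Fin 2 => (Sum.elim (fx z q) 0 : (Fin 2 × Fin (n + 1)) ⊕ K → L))
    (fun q : Fin 2 × Fin 2 => (PhiK n K g).mulVec (Sum.elim (fx z' q) 0))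
    (Sum.elim (Sum.elim (fun k => Sum.elim (W2 D z (W k)) 0)
      fun k => Sum.elim (V2 D z (G k)) 0)
      fun q => Sum.elim (V2 D z (mon d L i j q)) (lam q))
    (fun k => (PhiK n K g).mulVec ((Sum.elim (Sum.elim (fun k => Sum.elim (W2 D z' (W k)) 0)
      fun k => Sum.elim (V2 D z' (G k)) 0)
      fun q => Sum.elim (V2 D z' (mon d L i j q)) (lam q) : ((Fin w ⊕ Fin κ) ⊕ Mi d) →
        (Fin 2 × Fin (n + 1)) ⊕ K → L) k))
    (g⁻¹ ⊗ₖ gᵀ)
    (Matrix.of fun q' k => ∑ α, g⁻¹ q'.1 α * (Sum.elim (Sum.elim (fun k => θW (W k))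
      fun k => θV (G k)) fun q => θV (mon d L i j q) : ((Fin w ⊕ Fin κ) ⊕ Mi d) →
        Fin 2 → Fin 2 → L) k α q'.2)
    (fun q => by
      funext ρ
      rw [Finset.sum_apply]
      rcases ρ with ρ | b
      · have h := congrFun (fx_eq z z' g hz hg q) ρ
        rw [Finset.sum_apply] at h
        simp only [PhiK_mulVec, Sum.elim_inl, Pi.smul_apply] at h ⊢
        exact h
      · simp only [PhiK_mulVec, Sum.elim_inr, Pi.smul_apply, Pi.zero_apply, smul_zero,
          Finset.sum_const_zero])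
    (by
      have key : ∀ (v v' : Fin 2 × Fin (n + 1) → L) (l : K → L) (θ : Fin 2 → Fin 2 → L),
          (∀ ρ, v ρ = ∑ b, g ρ.1 b * v' (b, ρ.2) + ∑ b, θ ρ.1 b * z' b ρ.2) →
          (Sum.elim v l : (Fin 2 × Fin (n + 1)) ⊕ K → L) = (PhiK n K g).mulVec (Sum.elim v' l) +
            ∑ q' : Fin 2 × Fin 2, (∑ α, g⁻¹ q'.1 α * θ α q'.2) •
              (PhiK n K g).mulVec (Sum.elim (fx z' q') 0) := by
        intro v v' l θ hθ
        funext ρ
        rw [Pi.add_apply, Finset.sum_apply]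
        rcases ρ with ρ | b
        · have h := congrFun (op_eq z z' g hz hg v v' θ hθ) ρ
          rw [Pi.add_apply, Finset.sum_apply] at h
          simp only [PhiK_mulVec, Sum.elim_inl, Pi.smul_apply] at h ⊢
          exact h
        · simp only [PhiK_mulVec, Sum.elim_inr, Pi.smul_apply, Pi.zero_apply, smul_zero,
            Finset.sum_const_zero, add_zero]
      rintro ((k | k) | q)
      · exact key _ _ _ _ (hθW (W k))
      · exact key _ _ _ _ (hθV (G k))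
      · exact key _ _ _ _ (hθV (mon d L i j q)))
  have h2 := detF_map e (colZ D z' K W G i j lam) (PhiK n K g)
  rw [det_PhiK] at h2
  rw [← h2]
  have h3 : (fun k => (PhiK n K g).mulVec (colZ D z' K W G i j lam k)) =
      Sum.elim (fun q : Fin 2 × Fin 2 => (PhiK n K g).mulVec (Sum.elim (fx z' q) 0))
    (fun k => (PhiK n K g).mulVec ((Sum.elim (Sum.elim (fun k => Sum.elim (W2 D z' (W k)) 0)
      fun k => Sum.elim (V2 D z' (G k)) 0)
      fun q => Sum.elim (V2 D z' (mon d L i j q)) (lam q) : ((Fin w ⊕ Fin κ) ⊕ Mi d) →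
        (Fin 2 × Fin (n + 1)) ⊕ K → L) k)) := by
    funext k
    rcases k with q | k <;> rfl
  rw [h3]
  rw [hU, mul_one] at h1
  exact h1

end loc

end Pool.Agent.Lines.H26
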